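import Pool.Agent.Helper33.A8.TA0

/-!
# The 3A lemma for modules (blocks M20 and M21)
-/

set_option autoImplicit false

namespace Pool.Agent.A8
namespace TA

open Matrix

section
variable {X : Type*} [AddCommGroup X] [Module RG X]

/-- fixed by `ga` and the stabiliser of the base point -/
structure B (x : X) : Prop where
  a : act ga x = x
  b : ∀ b ∈ A4L, act b x = x

theorem B.zero : B (0 : X) := ⟨act_zero _, fun _ _ => act_zero _⟩

theorem B.add {x y : X} (hx : B x) (hy : B y) : B (x + y) :=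
  ⟨by rw [act_add, hx.a, hy.a], fun b hb => by rw [act_add, hx.b b hb, hy.b b hb]⟩

theorem B.mv {x : X} (hx : B x) {g : Gam} {m m' : ℕ} (h : (cc ^ m')⁻¹ * g * cc ^ m ∈ A4L) :
    act g (act (cc ^ m) x) = act (cc ^ m') x := by
  have h1 := hx.b _ h
  have e : g * cc ^ m = cc ^ m' * ((cc ^ m')⁻¹ * g * cc ^ m) := by group
  rw [← act_mul, e, act_mul, h1]

theorem B.hh {x : X} (hx : B x) : B (act hh x) := by
  constructor
  · rw [← act_mul]
    have e : ga * TA.hh = TA.hh * ga⁻¹ := by decide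
    rw [e, act_mul]
    have : act ga⁻¹ x = x := by
      have := hx.a
      nth_rw 1 [← this]
      exact act_inv_act _ _
    rw [this]
  · intro b hb
    have h1 := hx.b _ (A4L_hh b hb)
    have e : b * TA.hh = TA.hh * (TA.hh⁻¹ * b * TA.hh) := by group
    rw [← act_mul, e, act_mul, h1]

theorem B.mvh {x : X} (hx : B x) {m m' : ℕ} (h : (cc ^ m')⁻¹ * (TA.hh * cc ^ m * TA.hh⁻¹) ∈ A4L) :
    act TA.hh (act (cc ^ m) x) = act (cc ^ m') (act TA.hh x) := by
  have h1 := hx.hh.b _ h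
  have e : TA.hh * cc ^ m = cc ^ m' * (((cc ^ m')⁻¹ * (TA.hh * cc ^ m * TA.hh⁻¹)) * TA.hh) := by
    group
  rw [← act_mul, e, act_mul, act_mul, h1]

theorem B.hh2 {x : X} (hx : B x) : act TA.hh (act TA.hh x) = x := by
  rw [← act_mul]
  exact hx.b (TA.hh * TA.hh) (by decide +kernel)

theorem ga_cfix {x : X} (ha : act ga x = x) (k : ℕ) : act ga (act (cc ^ k) x) = act (cc ^ k) x := by
  rw [← act_mul]
  have e : ga * cc ^ k = cc ^ k * ga := by
    have : Commute ga cc := ga_cc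
    exact (this.pow_right k).eq
  rw [e, act_mul, ha]

theorem cfix (F : Free15 X) {x : X} (ha : act ga x = x) {k : ℕ} (hk : k = 1 ∨ k = 4)
    (h : act (cc ^ k) x = x) : x = 0 := by
  apply F _ (ord15 k hk)
  rw [act_mul, h, ha]

theorem sum5 (F : Free15 X) {x : X} (ha : act ga x = x) :
    x + act (cc ^ 1) x + act (cc ^ 2) x + act (cc ^ 3) x + act (cc ^ 4) x = 0 := by
  apply cfix F (k := 1) _ (Or.inl rfl)
  · simp only [act_add, ← act_mul, ← pow_add]
    norm_num
    rw [cc5, act_one]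
    abel
  · simp only [act_add, ha, ga_cfix ha]

/-- the key lemma: `κ` is zero if the norm of one of its translates is -/
theorem lemK (F : Free15 X) {x : X} (hx : B x) (h : nrm4 TA.hh (act (cc ^ 1) x) = 0) : x = 0 := by
  have e1 : act TA.hh (act (cc ^ 1) x) = act (cc ^ 4) (act TA.hh x) := hx.mvh (by decide +kernel)
  have e2 : act (TA.hh ^ 2) (act (cc ^ 1) x) = act (cc ^ 3) x := by
    rw [pow_two, act_mul, e1, hx.hh.mvh (m' := 3) (by decide +kernel), hx.hh2]
  have e3 : act (TA.hh ^ 3) (act (cc ^ 1) x) = act (cc ^ 2) (act TA.hh x) := by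
    rw [pow_succ', act_mul, e2]
    exact hx.mvh (by decide +kernel)
  have h1 : act (cc ^ 1) x + act (cc ^ 4) (act TA.hh x) + act (cc ^ 3) x +
      act (cc ^ 2) (act TA.hh x) = 0 := by
    rw [nrm4, e1, e2, e3] at h
    exact h
  have h2 := congrArg (act dd) h1
  rw [act_zero] at h2
  simp only [act_add] at h2
  rw [hx.mv (g := dd) (m := 1) (m' := 1) (by decide +kernel), hx.mv (g := dd) (m := 3) (m' := 3) (by decide +kernel),
    hx.hh.mv (g := dd) (m := 4) (m' := 2) (by decide +kernel),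
    hx.hh.mv (g := dd) (m := 2) (m' := 0) (by decide +kernel)] at h2
  rw [pow_zero, act_one] at h2
  have h3 : act (cc ^ 4) (act TA.hh x) + act TA.hh x = 0 := by
    have h4 : (act (cc ^ 1) x + act (cc ^ 4) (act TA.hh x) + act (cc ^ 3) x +
      act (cc ^ 2) (act TA.hh x)) + (act (cc ^ 1) x + act (cc ^ 2) (act TA.hh x) + act (cc ^ 3) x +
      act TA.hh x) = 0 := by rw [h1, h2, add_zero]
    have h5 : (act (cc ^ 1) x + act (cc ^ 4) (act TA.hh x) + act (cc ^ 3) x +
      act (cc ^ 2) (act TA.hh x)) + (act (cc ^ 1) x + act (cc ^ 2) (act TA.hh x) + act (cc ^ 3) x +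
      act TA.hh x) = act (cc ^ 4) (act TA.hh x) + act TA.hh x := by
      calc _ = (act (cc ^ 1) x + act (cc ^ 1) x) + (act (cc ^ 3) x + act (cc ^ 3) x) +
            (act (cc ^ 2) (act TA.hh x) + act (cc ^ 2) (act TA.hh x)) +
            (act (cc ^ 4) (act TA.hh x) + act TA.hh x) := by abel
        _ = _ := by simp only [add_self, zero_add]
    rw [← h5, h4]
  have h6 : act (cc ^ 4) (act TA.hh x) = act TA.hh x := by
    rw [← neg_eq (act TA.hh x)] 
    rw [eq_neg_iff_add_eq_zero, ← h3]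
    rw [neg_eq]
  have h7 := cfix F hx.hh.a (Or.inr rfl) h6
  exact act_inj TA.hh (by rw [h7, act_zero])

/-- the sum over the stabiliser of the base point -/
noncomputable def T (x : X) : X := (A4L.map (fun b => act b x)).sum

theorem B_T {x : X} (ha : act ga x = x) : B (T x) := by
  have hs : ∀ (g : Gam) (L : List Gam), act g ((L.map (fun b => act b x)).sum) =
      ((L.map (g * ·)).map (fun b => act b x)).sum := by
    intro g L
    induction L with
    | nil => simp
    | cons b L ih => simp only [List.map_cons, List.sum_cons, act_add, ih, act_mul]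
  constructor
  · rw [T, hs]
    rw [List.map_map]
    congr 1
    apply List.map_congr_left
    intro b hb
    change act (ga * b) x = act b x
    rw [A4L_ga b hb, act_mul, ha]
  · intro b hb
    rw [T, hs]
    exact ((A4L_perm b hb).map _).sum_eq

/-- the projector -/
noncomputable def Pr (x : X) : X :=
  T x + act (cc ^ 1) (T (act (cc ^ 4) x)) + act (cc ^ 2) (T (act (cc ^ 3) x)) +
    act (cc ^ 3) (T (act (cc ^ 2) x)) + act (cc ^ 4) (T (act (cc ^ 1) x))

/-- sums of translates of vectors fixed by the stabiliser -/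
def S (x : X) : Prop := ∃ y0 y1 y2 y3 y4 : X, B y0 ∧ B y1 ∧ B y2 ∧ B y3 ∧ B y4 ∧
  x = y0 + act (cc ^ 1) y1 + act (cc ^ 2) y2 + act (cc ^ 3) y3 + act (cc ^ 4) y4

theorem S.add {x y : X} (hx : S x) (hy : S y) : S (x + y) := by
  obtain ⟨a0, a1, a2, a3, a4, h0, h1, h2, h3, h4, rfl⟩ := hx
  obtain ⟨b0, b1, b2, b3, b4, k0, k1, k2, k3, k4, rfl⟩ := hy
  refine ⟨a0 + b0, a1 + b1, a2 + b2, a3 + b3, a4 + b4, h0.add k0, h1.add k1, h2.add k2,
    h3.add k3, h4.add k4, ?_⟩
  simp only [act_add]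
  abel

theorem S.zero : S (0 : X) :=
  ⟨0, 0, 0, 0, 0, B.zero, B.zero, B.zero, B.zero, B.zero, by simp⟩

theorem S_Pr {x : X} (ha : act ga x = x) : S (Pr x) :=
  ⟨_, _, _, _, _, B_T ha, B_T (ga_cfix ha 4), B_T (ga_cfix ha 3), B_T (ga_cfix ha 2),
    B_T (ga_cfix ha 1), rfl⟩

variable {Y : Type*} [AddCommGroup Y] [Module RG Y]

theorem map_T (f : X →ₗ[RG] Y) (x : X) : f (T x) = T (f x) := by
  have hs : ∀ (L : List Gam), f ((L.map (fun b => act b x)).sum) =
      (L.map (fun b => act b (f x))).sum := by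
    intro L
    induction L with
    | nil => simp
    | cons b L ih => simp only [List.map_cons, List.sum_cons, map_add, ih, map_act]
  exact hs A4L

theorem map_Pr (f : X →ₗ[RG] Y) (x : X) : f (Pr x) = Pr (f x) := by
  simp only [Pr, map_add, map_act, map_T]

theorem Pr_zero : Pr (0 : X) = 0 := by
  have : T (0 : X) = 0 := by simp [T]
  simp only [Pr, act_zero, this, add_zero]

end

theorem fixV : ∀ v : V4, ga.1 *ᵥ v = v → v = 0 := by decide +kernel
theorem fixD : ∀ v : V4, (ga⁻¹).1ᵀ *ᵥ v = v → v = 0 := by decide +kernel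

/-! the action on `V6` in coordinates -/
theorem cL1 : ∀ m : V6, actL (cc ^ 1).1 m =
    ![m 5, m 1 + m 5, m 3 + m 5, m 2, m 4 + m 5, m 0 + m 1 + m 2 + m 4 + m 5] := by decide +kernel
theorem cL2 : ∀ m : V6, actL (cc ^ 2).1 m =
    ![m 0 + m 1 + m 2 + m 4 + m 5, m 0 + m 2 + m 4, m 0 + m 1 + m 4 + m 5, m 3 + m 5,
      m 0 + m 1 + m 2, m 0 + m 2 + m 3 + m 5] := by decide +kernel
theorem cL3 : ∀ m : V6, actL (cc ^ 3).1 m =
    ![m 0 + m 2 + m 3 + m 5, m 3 + m 4 + m 5, m 0 + m 2, m 0 + m 1 + m 4 + m 5,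
      m 1 + m 3 + m 5, m 0 + m 1 + m 3 + m 4 + m 5] := by decide +kernel
theorem cL4 : ∀ m : V6, actL (cc ^ 4).1 m =
    ![m 0 + m 1 + m 3 + m 4 + m 5, m 0 + m 1, m 3, m 0 + m 2, m 0 + m 4, m 0] := by
  decide +kernel
theorem gaL : ∀ m : V6, actL ga.1 m =
    ![m 0, m 4, m 3 + m 4, m 2 + m 4, m 1 + m 2 + m 3 + m 4, m 5] := by decide +kernel
theorem TLf : ∀ m : V6, (A4L.map (fun b => actL b.1 m)).sum = ![m 5, 0, 0, 0, 0, 0] := by
  decide +kernel

section
variable {X : Type*} [AddCommGroup X] [Module RG X]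

theorem T_ML (m : ML) : T m = ((![m 5, 0, 0, 0, 0, 0] : V6) : ML) := by
  rw [← TLf m]
  have : ∀ L : List Gam, (L.map (fun b => act b m)).sum =
      ((L.map (fun b => actL b.1 m)).sum : V6) := by
    intro L
    induction L with
    | nil => rfl
    | cons b L ih =>
      rw [List.map_cons, List.sum_cons, List.map_cons, List.sum_cons, ih, act_ML]
      rfl
  exact this A4L

theorem PrL_fix (v : V6) (h : actL ga.1 v = v) :
    (![v 5, 0, 0, 0, 0, 0] + actL (cc ^ 1).1 ![(actL (cc ^ 4).1 v) 5, 0, 0, 0, 0, 0] +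
      actL (cc ^ 2).1 ![(actL (cc ^ 3).1 v) 5, 0, 0, 0, 0, 0] +
      actL (cc ^ 3).1 ![(actL (cc ^ 2).1 v) 5, 0, 0, 0, 0, 0] +
      actL (cc ^ 4).1 ![(actL (cc ^ 1).1 v) 5, 0, 0, 0, 0, 0] : V6) = v := by
  rw [gaL] at h
  simp only [cL1, cL2, cL3, cL4]
  revert h
  revert v
  decide +kernel

theorem Pr_ML (m : ML) (h : act ga m = m) : Pr m = m := by
  rw [act_ML] at h
  have h' : actL ga.1 m = m := h
  have hP : Pr m = ((![m 5, 0, 0, 0, 0, 0] + actL (cc ^ 1).1 ![(actL (cc ^ 4).1 m) 5, 0, 0, 0, 0, 0] +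
      actL (cc ^ 2).1 ![(actL (cc ^ 3).1 m) 5, 0, 0, 0, 0, 0] +
      actL (cc ^ 3).1 ![(actL (cc ^ 2).1 m) 5, 0, 0, 0, 0, 0] +
      actL (cc ^ 4).1 ![(actL (cc ^ 1).1 m) 5, 0, 0, 0, 0, 0] : V6) : ML) := by
    rw [Pr, T_ML, T_ML, T_ML, T_ML, T_ML, act_ML (cc ^ 4) m, act_ML (cc ^ 3) m,
      act_ML (cc ^ 2) m, act_ML (cc ^ 1) m]
    exact congrArg₂ (· + ·) (congrArg₂ (· + ·) (congrArg₂ (· + ·) (congrArg₂ (· + ·) rfl
      (act_ML _ _)) (act_ML _ _)) (act_ML _ _)) (act_ML _ _)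
  exact hP.trans (PrL_fix m h')

theorem Pr_Md (a : Ty) (m : Md a) (h : act ga m = m) : Pr m = m := by
  cases a with
  | v =>
    have : m = 0 := by
      rw [act_MV] at h
      exact fixV m h
    subst this
    exact Pr_zero
  | d =>
    have : m = 0 := by
      rw [act_MD] at h
      exact fixD m h
    subst this
    exact Pr_zero
  | l => exact Pr_ML m h

theorem gen_aux [Finite X] (hV : VDL X) : ∀ P : Submodule RG X, ∀ x ∈ P, act ga x = x → S x := by
  intro P
  induction P using WellFoundedLT.induction with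
  | ind P ih =>
    intro x hx ha
    by_cases hP : P = ⊥
    · subst hP
      rw [Submodule.mem_bot] at hx
      subst hx
      exact S.zero
    · obtain ⟨N, -, hN⟩ := exists_le_covBy_of_lt (bot_lt_iff_ne_bot.2 hP)
      obtain ⟨a, f, -, hf⟩ := hV N P hN
      have h1 : f (Pr (⟨x, hx⟩ : P)) = f ⟨x, hx⟩ := by
        rw [map_Pr]
        apply Pr_Md
        rw [← map_act]
        congr 1
        exact Subtype.ext ha
      have h2 : f (⟨x, hx⟩ + Pr (⟨x, hx⟩ : P)) = 0 := by
        rw [map_add, h1, add_self]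
      have h3 := (hf _).1 h2
      have h4 : ((⟨x, hx⟩ + Pr (⟨x, hx⟩ : P) : P) : X) = x + Pr x := by
        have := map_Pr P.subtype (⟨x, hx⟩ : P)
        rw [Submodule.coe_add]
        congr 1
      rw [h4] at h3
      have h5 : act ga (Pr x) = Pr x := by
        obtain ⟨y0, y1, y2, y3, y4, k0, k1, k2, k3, k4, e⟩ := S_Pr ha
        rw [e]
        simp only [act_add, ga_cfix k1.a, ga_cfix k2.a, ga_cfix k3.a, ga_cfix k4.a, k0.a]
      have h6 : S (x + Pr x) := ih N hN.lt _ h3 (by rw [act_add, ha, h5])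
      have h7 : x = (x + Pr x) + Pr x := by rw [add_assoc, add_self, add_zero]
      rw [h7]
      exact h6.add (S_Pr ha)

theorem gen [Finite X] (hV : VDL X) {x : X} (ha : act ga x = x) : S x :=
  gen_aux hV ⊤ x trivial ha

/-- vectors fixed by the stabiliser of the points 0 and 1 -/
theorem fixZ [Finite X] (F : Free15 X) (hV : VDL X) {e : X} (ha : act ga e = e)
    (hw : act ww e = e) : ∃ l m : X, B l ∧ B m ∧ e = l + act (cc ^ 1) m := by
  obtain ⟨y0, y1, y2, y3, y4, k0, k1, k2, k3, k4, he⟩ := gen hV ha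
  have a0 : act ww y0 = y0 := by
    have := k0.mv (g := ww) (m := 0) (m' := 0) (by decide)
    simpa using this
  have a1 := k1.mv (g := ww) (m := 1) (m' := 1) (by decide)
  have a2 := k2.mv (g := ww) (m := 2) (m' := 4) (by decide)
  have a2' := k2.mv (g := ww) (m := 4) (m' := 3) (by decide)
  have a3 := k3.mv (g := ww) (m := 3) (m' := 2) (by decide)
  have a3' := k3.mv (g := ww) (m := 2) (m' := 4) (by decide)
  have a4 := k4.mv (g := ww) (m := 4) (m' := 3) (by decide)
  have a4' := k4.mv (g := ww) (m := 3) (m' := 2) (by decide)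
  have e1 : e = y0 + act (cc ^ 1) y1 + act (cc ^ 4) y2 + act (cc ^ 2) y3 + act (cc ^ 3) y4 := by
    have := hw
    nth_rw 1 [he] at this
    simp only [act_add, a0, a1, a2, a3, a4] at this
    exact this.symm
  have e2 : e = y0 + act (cc ^ 1) y1 + act (cc ^ 3) y2 + act (cc ^ 4) y3 + act (cc ^ 2) y4 := by
    have := hw
    nth_rw 1 [e1] at this
    simp only [act_add, a0, a1, a2', a3', a4'] at this
    exact this.symm
  refine ⟨y0 + y2 + y3 + y4, y1 + y2 + y3 + y4, ((k0.add k2).add k3).add k4,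
    ((k1.add k2).add k3).add k4, ?_⟩
  have s2 := sum5 F k2.a
  have s3 := sum5 F k3.a
  have s4 := sum5 F k4.a
  have h3 : e = e + e + e := by rw [add_self, zero_add]
  have h4 : e + e + e = (y0 + act (cc ^ 1) y1) + ((y0 + act (cc ^ 1) y1) + (y0 + act (cc ^ 1) y1)) +
      (act (cc ^ 2) y2 + act (cc ^ 3) y2 + act (cc ^ 4) y2) +
      (act (cc ^ 2) y3 + act (cc ^ 3) y3 + act (cc ^ 4) y3) +
      (act (cc ^ 2) y4 + act (cc ^ 3) y4 + act (cc ^ 4) y4) := by
    nth_rw 1 [he]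
    nth_rw 1 [e1]
    nth_rw 1 [e2]
    abel
  have s' : ∀ y : X, y + act (cc ^ 1) y + act (cc ^ 2) y + act (cc ^ 3) y + act (cc ^ 4) y = 0 →
      act (cc ^ 2) y + act (cc ^ 3) y + act (cc ^ 4) y = y + act (cc ^ 1) y := by
    intro y hy
    have : (y + act (cc ^ 1) y) + (act (cc ^ 2) y + act (cc ^ 3) y + act (cc ^ 4) y) = 0 := by
      rw [← hy]; abel
    rw [← neg_eq (act (cc ^ 2) y + act (cc ^ 3) y + act (cc ^ 4) y)]
    exact (eq_neg_of_add_eq_zero_left this).symm
  rw [← h3, s' _ s2, s' _ s3, s' _ s4, add_self (y0 + act (cc ^ 1) y1), add_zero] at h4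
  rw [h4]
  simp only [act_add]
  abel

end

section
variable {X Y E : Type*} [AddCommGroup X] [Module RG X] [AddCommGroup Y] [Module RG Y]
  [AddCommGroup E] [Module RG E]

theorem pB {p : X →+ Y →+ E} (hp : Adm p) {x : X} {y : Y} (hx : B x) (hy : B y) : B (p x y) :=
  ⟨by rw [← hp.equiv, hx.a, hy.a], fun b hb => by rw [← hp.equiv, hx.b b hb, hy.b b hb]⟩

theorem p1 [Finite E] (FX : Free15 X) (FY : Free15 Y) (FE : Free15 E) (VE : VDL E)
    {p : X →+ Y →+ E} (hp : Adm p) {x : X} {y : Y} (hx : B x) (hy : B y) (m : ℕ)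
    (hm : m = 1 ∨ m = 2 ∨ m = 3 ∨ m = 4) :
    p x (act (cc ^ m) y) = p x y + act (cc ^ m) (p x y) := by
  obtain ⟨l, μ, hl, hμ, he⟩ := fixZ (e := p x (act (cc ^ 1) y)) FE VE
    (by rw [← hp.equiv, hx.a, ga_cfix hy.a])
    (by
      rw [← hp.equiv, hy.mv (g := ww) (m := 1) (m' := 1) (by decide)]
      congr 2
      have := hx.mv (g := ww) (m := 0) (m' := 0) (by decide)
      simpa using this)
  have key : ∀ (g : Gam) (k : ℕ), g ∈ A4L → (cc ^ k)⁻¹ * g * cc ^ 1 ∈ A4L →
      p x (act (cc ^ k) y) = l + act (cc ^ k) μ := by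
    intro g k hg hk
    have := congrArg (act g) he
    rw [← hp.equiv, act_add, hx.b g hg, hl.b g hg, hy.mv hk, hμ.mv hk] at this
    exact this
  have k1 := key 1 1 (by decide) (by decide)
  have k2 := key (t1 * t2) 2 (by decide) (by decide)
  have k3 := key t1 3 (by decide) (by decide)
  have k4 := key t2 4 (by decide) (by decide)
  have sμ := sum5 FE hμ.a
  have sl := sum5 FE hl.a
  have four : ∀ z : E, z + z + z + z = 0 := fun z => by
    rw [add_assoc, add_self]
  -- first sum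
  have hsum : p x y + p x (act (cc ^ 1) y) + p x (act (cc ^ 2) y) + p x (act (cc ^ 3) y) +
      p x (act (cc ^ 4) y) = 0 := by
    simp only [← map_add, sum5 FY hy.a, map_zero]
  rw [k1, k2, k3, k4] at hsum
  have eμ : p x y = μ := by
    have h1 : p x y + μ + ((l + l + l + l) +
        (μ + act (cc ^ 1) μ + act (cc ^ 2) μ + act (cc ^ 3) μ + act (cc ^ 4) μ)) + (μ + μ) + 
        0 = μ + μ + (p x y + μ) := by
      rw [four, sμ, add_self]
      abel
    have h2 : p x y + μ + (l + l + l + l) +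
        (act (cc ^ 1) μ + act (cc ^ 2) μ + act (cc ^ 3) μ + act (cc ^ 4) μ) = μ := by
      calc _ = (p x y + (l + act (cc ^ 1) μ) + (l + act (cc ^ 2) μ) + (l + act (cc ^ 3) μ) +
          (l + act (cc ^ 4) μ)) + μ := by abel
        _ = μ := by rw [hsum, zero_add]
    have h3 : act (cc ^ 1) μ + act (cc ^ 2) μ + act (cc ^ 3) μ + act (cc ^ 4) μ = μ := by
      have : μ + (act (cc ^ 1) μ + act (cc ^ 2) μ + act (cc ^ 3) μ + act (cc ^ 4) μ) = 0 := by
        rw [← sμ]; abel
      rw [← neg_eq (act (cc ^ 1) μ + act (cc ^ 2) μ + act (cc ^ 3) μ + act (cc ^ 4) μ)]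
      exact (eq_neg_of_add_eq_zero_left this).symm
    rw [four, h3, add_zero, add_assoc, add_self, add_zero] at h2
    exact h2
  -- second sum
  have c' : ∀ j k : ℕ, j + k = 5 → p (act (cc ^ j) x) y = act (cc ^ j) (p x (act (cc ^ k) y)) := by
    intro j k hjk
    rw [← hp.equiv, ← act_mul, ← pow_add, hjk, cc5, act_one]
  have c5 : ∀ j k : ℕ, j + k = 5 → act (cc ^ j) (act (cc ^ k) μ) = μ := by
    intro j k hjk
    rw [← act_mul, ← pow_add, hjk, cc5, act_one]
  have hsum2 : p x y + p (act (cc ^ 1) x) y + p (act (cc ^ 2) x) y + p (act (cc ^ 3) x) y +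
      p (act (cc ^ 4) x) y = 0 := by
    have := congrArg (fun z => p z y) (sum5 FX hx.a)
    simp only [map_add, map_zero, AddMonoidHom.add_apply, AddMonoidHom.zero_apply] at this
    exact this
  rw [c' 1 4 rfl, c' 2 3 rfl, c' 3 2 rfl, c' 4 1 rfl, k1, k2, k3, k4] at hsum2
  simp only [act_add] at hsum2
  rw [c5 1 4 rfl, c5 2 3 rfl, c5 3 2 rfl, c5 4 1 rfl] at hsum2
  have el : p x y = l := by
    have h3 : act (cc ^ 1) l + act (cc ^ 2) l + act (cc ^ 3) l + act (cc ^ 4) l = l := by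
      have : l + (act (cc ^ 1) l + act (cc ^ 2) l + act (cc ^ 3) l + act (cc ^ 4) l) = 0 := by
        rw [← sl]; abel
      rw [← neg_eq (act (cc ^ 1) l + act (cc ^ 2) l + act (cc ^ 3) l + act (cc ^ 4) l)]
      exact (eq_neg_of_add_eq_zero_left this).symm
    have h2 : p x y + (act (cc ^ 1) l + act (cc ^ 2) l + act (cc ^ 3) l + act (cc ^ 4) l) +
        (μ + μ + μ + μ) = 0 := by
      rw [← hsum2]; abel
    rw [h3, four, add_zero] at h2
    rw [← neg_eq l]
    exact eq_neg_of_add_eq_zero_left h2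
  rcases hm with rfl | rfl | rfl | rfl
  · rw [k1, el]; rw [← eμ, el]
  · rw [k2, el]; rw [← eμ, el]
  · rw [k3, el]; rw [← eμ, el]
  · rw [k4, el]; rw [← eμ, el]

/-- the values of the pairing on translates -/
theorem pij [Finite E] (FX : Free15 X) (FY : Free15 Y) (FE : Free15 E) (VE : VDL E)
    {p : X →+ Y →+ E} (hp : Adm p) {x : X} {y : Y} (hx : B x) (hy : B y) (i j : ℕ) (hi : i ≤ 4)
    (hj : j ≤ 4) (hij : i ≠ j) : p (act (cc ^ i) x) (act (cc ^ j) y) =
      act (cc ^ i) (p x y) + act (cc ^ j) (p x y) := by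
  have red : ∀ z : Y, act (cc ^ j) z = act (cc ^ i) (act (cc ^ ((j + 5 - i) % 5)) z) := by
    intro z
    rw [← act_mul, ← pow_add]
    congr 1
    have : i + (j + 5 - i) % 5 = j ∨ i + (j + 5 - i) % 5 = j + 5 := by omega
    rcases this with h | h
    · rw [h]
    · rw [h, pow_add, cc5, mul_one]
  have red' : ∀ z : E, act (cc ^ j) z = act (cc ^ i) (act (cc ^ ((j + 5 - i) % 5)) z) := by
    intro z
    rw [← act_mul, ← pow_add]
    congr 1
    have : i + (j + 5 - i) % 5 = j ∨ i + (j + 5 - i) % 5 = j + 5 := by omega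
    rcases this with h | h
    · rw [h]
    · rw [h, pow_add, cc5, mul_one]
  rw [red, red', hp.equiv, p1 FX FY FE VE hp hx hy _ (by omega), act_add]

theorem pii {p : X →+ Y →+ E} (hp : Adm p) (x : X) (y : Y) (i : ℕ) :
    p (act (cc ^ i) x) (act (cc ^ i) y) = act (cc ^ i) (p x y) := hp.equiv _ _ _

theorem nrm_B {x : X} (hx : B x) : nrm4 hh (act (cc ^ 1) x) =
    act (cc ^ 1) x + act (cc ^ 4) (act hh x) + act (cc ^ 3) x + act (cc ^ 2) (act hh x) := by
  have e1 : act TA.hh (act (cc ^ 1) x) = act (cc ^ 4) (act TA.hh x) := hx.mvh (by decide)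
  have e2 : act (TA.hh ^ 2) (act (cc ^ 1) x) = act (cc ^ 3) x := by
    rw [pow_two, act_mul, e1, hx.hh.mvh (m' := 3) (by decide), hx.hh2]
  have e3 : act (TA.hh ^ 3) (act (cc ^ 1) x) = act (cc ^ 2) (act TA.hh x) := by
    rw [pow_succ', act_mul, e2]
    exact hx.mvh (by decide)
  rw [nrm4, e1, e2, e3]

theorem p0 [Finite E] (FX : Free15 X) (FY : Free15 Y) (FE : Free15 E) (VE : VDL E)
    {p : X →+ Y →+ E} (hp : Adm p) {x : X} {y : Y} (hx : B x) (hy : B y) : p x y = 0 := by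
  apply lemK FE (pB hp hx hy)
  have h := hp.four hh ord4 (act (cc ^ 1) x) (act (cc ^ 1) y)
  rw [nrm_B hx, nrm_B hy] at h
  simp only [map_add, AddMonoidHom.add_apply] at h
  have P := fun {a : X} {b : Y} (ha : B a) (hb : B b) (i j : ℕ) (hi : i ≤ 4) (hj : j ≤ 4)
    (hij : i ≠ j) => pij FX FY FE VE hp ha hb i j hi hj hij
  rw [pii hp, pii hp, pii hp, pii hp, 
    P hx hy 1 3 (by norm_num) (by norm_num) (by norm_num),
    P hx hy 3 1 (by norm_num) (by norm_num) (by norm_num),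
    P hx hy.hh 1 4 (by norm_num) (by norm_num) (by norm_num),
    P hx hy.hh 1 2 (by norm_num) (by norm_num) (by norm_num),
    P hx hy.hh 3 4 (by norm_num) (by norm_num) (by norm_num),
    P hx hy.hh 3 2 (by norm_num) (by norm_num) (by norm_num),
    P hx.hh hy 4 1 (by norm_num) (by norm_num) (by norm_num),
    P hx.hh hy 2 1 (by norm_num) (by norm_num) (by norm_num),
    P hx.hh hy 4 3 (by norm_num) (by norm_num) (by norm_num),
    P hx.hh hy 2 3 (by norm_num) (by norm_num) (by norm_num),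
    P hx.hh hy.hh 4 2 (by norm_num) (by norm_num) (by norm_num),
    P hx.hh hy.hh 2 4 (by norm_num) (by norm_num) (by norm_num)] at h
  rw [nrm_B (pB hp hx hy), show act hh (p x y) = p (act hh x) (act hh y) from
    (hp.equiv _ _ _).symm]
  have dbl : ∀ z : E, z + z = 0 := fun z => add_self z
  rw [← h]
  generalize act (cc ^ 1) (p x y) = A1
  generalize act (cc ^ 3) (p x y) = A3
  generalize act (cc ^ 4) (p (act hh x) (act hh y)) = A4
  generalize act (cc ^ 2) (p (act hh x) (act hh y)) = A2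
  generalize act (cc ^ 1) (p x (act hh y)) = B1
  generalize act (cc ^ 3) (p x (act hh y)) = B3
  generalize act (cc ^ 4) (p x (act hh y)) = B4
  generalize act (cc ^ 2) (p x (act hh y)) = B2
  generalize act (cc ^ 1) (p (act hh x) y) = C1
  generalize act (cc ^ 3) (p (act hh x) y) = C3
  generalize act (cc ^ 4) (p (act hh x) y) = C4
  generalize act (cc ^ 2) (p (act hh x) y) = C2
  have e : ∀ u : E, u = u + ((A1 + A1) + (A2 + A2) + (A3 + A3) + (A4 + A4) + (B1 + B1) + (B2 + B2) +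
    (B3 + B3) + (B4 + B4) + (C1 + C1) + (C2 + C2) + (C3 + C3) + (C4 + C4)) := by
    intro u
    simp only [dbl, add_zero]
  rw [e (A1 + A4 + A3 + A2)]
  abel

end

end TA

open TA in
theorem b3AP : S_3AP := by
  intro X Y E _ _ _ _ _ _ _ _ _ FX FY FE VX VY VE p hp x y hx hy
  obtain ⟨x0, x1, x2, x3, x4, h0, h1, h2, h3, h4, rfl⟩ := gen VX hx
  obtain ⟨y0, y1, y2, y3, y4, k0, k1, k2, k3, k4, rfl⟩ := gen VY hy
  have q : ∀ {a : X} {b : Y} (_ : B a) (_ : B b) (i j : ℕ), i ≤ 4 → j ≤ 4 →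
      p (act (cc ^ i) a) (act (cc ^ j) b) = 0 := by
    intro a b ha hb i j hi hj
    have z := p0 FX FY FE VE hp ha hb
    by_cases hij : i = j
    · subst hij
      rw [pii hp, z, act_zero]
    · rw [pij FX FY FE VE hp ha hb i j hi hj hij, z, act_zero, act_zero, add_zero]
  have q0 : ∀ {a : X} {b : Y} (_ : B a) (_ : B b) (j : ℕ), j ≤ 4 → p a (act (cc ^ j) b) = 0 := by
    intro a b ha hb j hj
    have := q ha hb 0 j (by norm_num) hj
    rwa [pow_zero, act_one] at this
  have q1 : ∀ {a : X} {b : Y} (_ : B a) (_ : B b) (j : ℕ), j ≤ 4 → p (act (cc ^ j) a) b = 0 := by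
    intro a b ha hb j hj
    have := q ha hb j 0 hj (by norm_num)
    rwa [pow_zero, act_one] at this
  simp only [map_add, AddMonoidHom.add_apply]
  rw [p0 FX FY FE VE hp h0 k0]
  simp only [q h1 k1 1 1 (by norm_num) (by norm_num), q h1 k2 1 2 (by norm_num) (by norm_num),
    q h1 k3 1 3 (by norm_num) (by norm_num), q h1 k4 1 4 (by norm_num) (by norm_num),
    q h2 k1 2 1 (by norm_num) (by norm_num), q h2 k2 2 2 (by norm_num) (by norm_num),
    q h2 k3 2 3 (by norm_num) (by norm_num), q h2 k4 2 4 (by norm_num) (by norm_num),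
    q h3 k1 3 1 (by norm_num) (by norm_num), q h3 k2 3 2 (by norm_num) (by norm_num),
    q h3 k3 3 3 (by norm_num) (by norm_num), q h3 k4 3 4 (by norm_num) (by norm_num),
    q h4 k1 4 1 (by norm_num) (by norm_num), q h4 k2 4 2 (by norm_num) (by norm_num),
    q h4 k3 4 3 (by norm_num) (by norm_num), q h4 k4 4 4 (by norm_num) (by norm_num),
    q0 h0 k1 1 (by norm_num), q0 h0 k2 2 (by norm_num), q0 h0 k3 3 (by norm_num),
    q0 h0 k4 4 (by norm_num), q1 h1 k0 1 (by norm_num), q1 h2 k0 2 (by norm_num),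
    q1 h3 k0 3 (by norm_num), q1 h4 k0 4 (by norm_num), add_zero]

open TA in
theorem b3AQ : S_3AQ := by
  intro Y E _ _ _ _ _ _ FY FE VY VE q hadd heq hn x hx
  have q0 : q 0 = 0 := by
    have := hadd 0 0 (act_zero _) (act_zero _)
    rw [add_zero] at this
    exact left_eq_add.1 this
  have eqc : ∀ (g : Gam) (y : Y), g * ga * g⁻¹ = ga → act ga y = y → q (act g y) = act g (q y) :=
    fun g y hg hy => heq g y (Or.inl hg) hy
  have cg : ∀ k : ℕ, cc ^ k * ga * (cc ^ k)⁻¹ = ga := by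
    intro k
    have : Commute ga cc := ga_cc
    rw [← (this.pow_right k).eq, mul_inv_cancel_right]
  have hB : ∀ y : Y, B y → B (q y) := by
    intro y hy
    constructor
    · rw [← eqc ga y (by group) hy.a, hy.a]
    · intro b hb
      rw [← eqc b y (by rw [← A4L_ga b hb, mul_inv_cancel_right]) hy.a, hy.b b hb]
  have hBq : ∀ y : Y, B y → q y = 0 := by
    intro y hy
    apply lemK FE (hB y hy)
    have h1 := hn hh (act (cc ^ 1) y) (Or.inr hh_ga) ord4 (ga_cfix hy.a 1)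
    rw [nrm_B hy] at h1
    rw [hadd, hadd, hadd] at h1
    · rw [nrm_B (hB y hy)]
      rw [eqc _ _ (cg 1) hy.a, eqc _ _ (cg 4) hy.hh.a, eqc _ _ (cg 3) hy.a, eqc _ _ (cg 2) hy.hh.a,
        heq hh y (Or.inr hh_ga) hy.a] at h1
      exact h1
    · exact ga_cfix hy.a 1
    · exact ga_cfix hy.hh.a 4
    · rw [act_add, ga_cfix hy.a 1, ga_cfix hy.hh.a 4]
    · exact ga_cfix hy.a 3
    · rw [act_add, act_add, ga_cfix hy.a 1, ga_cfix hy.hh.a 4, ga_cfix hy.a 3]
    · exact ga_cfix hy.hh.a 2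
  obtain ⟨x0, x1, x2, x3, x4, h0, h1, h2, h3, h4, rfl⟩ := gen VY hx
  have z : ∀ (y : Y) (k : ℕ), B y → q (act (cc ^ k) y) = 0 := by
    intro y k hy
    rw [eqc _ _ (cg k) hy.a, hBq y hy, act_zero]
  rw [hadd, hadd, hadd, hadd, hBq x0 h0, z x1 1 h1, z x2 2 h2, z x3 3 h3, z x4 4 h4]
  · simp
  · exact h0.a
  · exact ga_cfix h1.a 1
  · rw [act_add, h0.a, ga_cfix h1.a 1]
  · exact ga_cfix h2.a 2
  · rw [act_add, act_add, h0.a, ga_cfix h1.a 1, ga_cfix h2.a 2]
  · exact ga_cfix h3.a 3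
  · rw [act_add, act_add, act_add, h0.a, ga_cfix h1.a 1, ga_cfix h2.a 2, ga_cfix h3.a 3]
  · exact ga_cfix h4.a 4

end Pool.Agent.A8
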