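import Pool.Agent.Helper89.A8.GTools
import Pool.Agent.Helper89.A8.Stmts

/-!
# The 3A lemma for modules (blocks M20 and M21)

`V = F_4^2` with `ga` acting as the scalar `ω`; `SL_2(4) = A_5` acts on the five points of
`P^1(F_4)`; the points are numbered by the powers of the element `cc` of order 5.
-/

set_option autoImplicit false

namespace Pool.Agent.A8
namespace TA

open Matrix

/-- involution fixing the base point -/
def t1 : Gam := mkG !![1,0,1,0; 0,1,0,1; 0,0,1,0; 0,0,0,1] !![1,0,1,0; 0,1,0,1; 0,0,1,0; 0,0,0,1]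
  (by decide +kernel) (by decide +kernel)
/-- involution fixing the base point -/
def t2 : Gam := mkG !![1,0,0,1; 0,1,1,1; 0,0,1,0; 0,0,0,1] !![1,0,0,1; 0,1,1,1; 0,0,1,0; 0,0,0,1]
  (by decide +kernel) (by decide +kernel)
/-- order 3, fixes the points 0 and 1, permutes 2,4,3 -/
def ww : Gam := mkG !![0,1,0,0; 1,1,0,0; 0,0,1,1; 0,0,1,0] !![1,1,0,0; 1,0,0,0; 0,0,0,1; 0,0,1,1]
  (by decide +kernel) (by decide +kernel)
/-- order 5 -/
def cc : Gam := mkG !![0,0,1,0; 0,0,0,1; 1,0,0,1; 0,1,1,1] !![0,1,1,0; 1,1,0,1; 1,0,0,0; 0,1,0,0]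
  (by decide +kernel) (by decide +kernel)
/-- order 4, inverts `ga`, fixes the base point -/
def hh : Gam := mkG !![1,1,0,1; 0,1,1,0; 0,0,1,1; 0,0,0,1] !![1,1,1,0; 0,1,1,1; 0,0,1,1; 0,0,0,1]
  (by decide +kernel) (by decide +kernel)
/-- order 3, fixes the points 1 and 3 -/
def dd : Gam := mkG !![0,1,0,0; 1,1,0,0; 1,0,1,1; 0,1,1,0] !![1,1,0,0; 1,0,0,0; 1,0,0,1; 0,1,1,1]
  (by decide +kernel) (by decide +kernel)

def b0 : Gam := mkG !![1,0,0,0; 0,1,0,0; 0,0,1,0; 0,0,0,1] !![1,0,0,0; 0,1,0,0; 0,0,1,0; 0,0,0,1]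
  (by decide) (by decide)
def b1 : Gam := mkG !![1,0,1,0; 0,1,0,1; 0,0,1,0; 0,0,0,1] !![1,0,1,0; 0,1,0,1; 0,0,1,0; 0,0,0,1]
  (by decide) (by decide)
def b2 : Gam := mkG !![1,0,0,1; 0,1,1,1; 0,0,1,0; 0,0,0,1] !![1,0,0,1; 0,1,1,1; 0,0,1,0; 0,0,0,1]
  (by decide) (by decide)
def b3 : Gam := mkG !![1,0,1,1; 0,1,1,0; 0,0,1,0; 0,0,0,1] !![1,0,1,1; 0,1,1,0; 0,0,1,0; 0,0,0,1]
  (by decide) (by decide)
def b4 : Gam := mkG !![0,1,0,0; 1,1,0,0; 0,0,1,1; 0,0,1,0] !![1,1,0,0; 1,0,0,0; 0,0,0,1; 0,0,1,1]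
  (by decide) (by decide)
def b5 : Gam := mkG !![0,1,1,1; 1,1,1,0; 0,0,1,1; 0,0,1,0] !![1,1,1,1; 1,0,1,0; 0,0,0,1; 0,0,1,1]
  (by decide) (by decide)
def b6 : Gam := mkG !![0,1,1,0; 1,1,0,1; 0,0,1,1; 0,0,1,0] !![1,1,1,0; 1,0,0,1; 0,0,0,1; 0,0,1,1]
  (by decide) (by decide)
def b7 : Gam := mkG !![0,1,0,1; 1,1,1,1; 0,0,1,1; 0,0,1,0] !![1,1,0,1; 1,0,1,1; 0,0,0,1; 0,0,1,1]
  (by decide) (by decide)
def b8 : Gam := mkG !![1,1,0,0; 1,0,0,0; 0,0,0,1; 0,0,1,1] !![0,1,0,0; 1,1,0,0; 0,0,1,1; 0,0,1,0]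
  (by decide) (by decide)
def b9 : Gam := mkG !![1,1,0,1; 1,0,1,1; 0,0,0,1; 0,0,1,1] !![0,1,0,1; 1,1,1,1; 0,0,1,1; 0,0,1,0]
  (by decide) (by decide)
def b10 : Gam := mkG !![1,1,1,1; 1,0,1,0; 0,0,0,1; 0,0,1,1] !![0,1,1,1; 1,1,1,0; 0,0,1,1; 0,0,1,0]
  (by decide) (by decide)
def b11 : Gam := mkG !![1,1,1,0; 1,0,0,1; 0,0,0,1; 0,0,1,1] !![0,1,1,0; 1,1,0,1; 0,0,1,1; 0,0,1,0]
  (by decide) (by decide)

/-- the stabiliser of the base point in `SL_2(4)` -/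
def A4L : List Gam := [b0, b1, b2, b3, b4, b5, b6, b7, b8, b9, b10, b11]

theorem ord15 (k : ℕ) (hk : k = 1 ∨ k = 4) : orderOf (ga * cc ^ k) = 15 := by
  have h15 : (ga * cc ^ k) ^ 15 = 1 := by rcases hk with rfl | rfl <;> decide +kernel
  have h5 : (ga * cc ^ k) ^ 5 ≠ 1 := by rcases hk with rfl | rfl <;> decide +kernel
  have h3 : (ga * cc ^ k) ^ 3 ≠ 1 := by rcases hk with rfl | rfl <;> decide +kernel
  apply orderOf_eq_of_pow_and_pow_div_prime (by norm_num) h15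
  intro p hp hpd
  have : p ∈ Nat.primeFactors 15 := Nat.mem_primeFactors.2 ⟨hp, hpd, by norm_num⟩
  rw [show Nat.primeFactors 15 = {3, 5} from by decide +kernel] at this
  simp only [Finset.mem_insert, Finset.mem_singleton] at this
  rcases this with rfl | rfl
  · exact h5
  · exact h3

theorem ord4 : orderOf hh = 4 := by
  apply orderOf_eq_of_pow_and_pow_div_prime (by norm_num) (by decide +kernel)
  intro p hp hpd
  have : p ∈ Nat.primeFactors 4 := Nat.mem_primeFactors.2 ⟨hp, hpd, by norm_num⟩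
  rw [show Nat.primeFactors 4 = {2} from by decide +kernel] at this
  simp only [Finset.mem_singleton] at this
  subst this
  decide

theorem cc5 : cc ^ 5 = 1 := by decide
theorem ga_cc : ga * cc = cc * ga := by decide
theorem hh_ga : hh * ga * hh⁻¹ = ga⁻¹ := by decide
theorem A4L_ga : ∀ b ∈ A4L, ga * b = b * ga := by
  intro b hb
  simp only [A4L, List.mem_cons, List.mem_nil_iff, or_false] at hb
  rcases hb with rfl|rfl|rfl|rfl|rfl|rfl|rfl|rfl|rfl|rfl|rfl|rfl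
  all_goals decide
theorem A4L_hh : ∀ b ∈ A4L, hh⁻¹ * b * hh ∈ A4L := by
  intro b hb
  simp only [A4L, List.mem_cons, List.mem_nil_iff, or_false] at hb
  rcases hb with rfl|rfl|rfl|rfl|rfl|rfl|rfl|rfl|rfl|rfl|rfl|rfl
  all_goals decide


theorem A4L_mul : ∀ b ∈ A4L, ∀ b' ∈ A4L, b * b' ∈ A4L := by
  intro b hb b' hb'
  simp only [A4L, List.mem_cons, List.mem_nil_iff, or_false] at hb hb'
  rcases hb with rfl|rfl|rfl|rfl|rfl|rfl|rfl|rfl|rfl|rfl|rfl|rfl <;>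
  rcases hb' with rfl|rfl|rfl|rfl|rfl|rfl|rfl|rfl|rfl|rfl|rfl|rfl <;>
  decide

theorem A4L_nodup : A4L.Nodup := by decide

theorem A4L_perm : ∀ b ∈ A4L, (A4L.map (b * ·)).Perm A4L := by
  intro b hb
  apply (List.subperm_of_subset (A4L_nodup.map (mul_right_injective b)) _).perm_of_length_le
  · simp
  · intro c hc
    obtain ⟨b', hb', rfl⟩ := List.mem_map.1 hc
    exact A4L_mul b hb b' hb'


end TA
end Pool.Agent.A8
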